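import Mathlib

set_option autoImplicit false

namespace Pool.Agent.Results.MP_3cee42_co.NotPlain

abbrev V : Type := ZMod 2 × ZMod 2 × ZMod 2 × ZMod 2

def le (a b : V) : Prop :=
  a = 0 ∨ a = b ∨
  (b = (0, 1, 1, 1) ∧ (a = (1, 0, 0, 0) ∨ a = (1, 1, 1, 1))) ∨
  (b = (0, 1, 0, 0) ∧ (a = (0, 0, 1, 0) ∨ a = (0, 1, 1, 0))) ∨
  (b = (1, 0, 0, 1) ∧ (a = (1, 0, 1, 0) ∨ a = (0, 0, 1, 1)))

instance (a b : V) : Decidable (le a b) := by unfold le; infer_instance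

theorem result :
    ∃ (A : Type) (_ : AddCommGroup A) (_ : Fintype A) (_ : PartialOrder A),
      (∀ a b c : A, b ≤ a → c ≤ a → b + c ≤ a) ∧
      (∀ a b c : A, a ≤ b → a ≤ c → a ≤ a + b + c) ∧
      ¬ ∃ (I : Type) (_ : Finite I) (φ : A → Set I), Function.Injective φ ∧
        (∀ a b, φ (a + b) = symmDiff (φ a) (φ b)) ∧ ∀ a b, a ≤ b ↔ φ a ⊆ φ b := by
  let P : PartialOrder V :=
    { le := le
      lt := fun a b => le a b ∧ ¬ le b a
      le_refl := by decide +kernel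
      le_trans := by decide +kernel
      le_antisymm := by decide +kernel
      lt_iff_le_not_ge := fun _ _ => Iff.rfl }
  refine ⟨V, inferInstance, inferInstance, P, ?_, ?_, ?_⟩
  · show ∀ a b c : V, le b a → le c a → le (b + c) a
    decide +kernel
  · show ∀ a b c : V, le a b → le a c → le a (a + b + c)
    decide +kernel
  · rintro ⟨I, -, φ, -, hadd, hle⟩
    have hle' : ∀ a b : V, le a b ↔ φ a ⊆ φ b := hle
    have h0 : ¬ φ (1, 0, 0, 0) ⊆ φ (0, 1, 0, 0) := by rw [← hle']; decide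
    obtain ⟨i, h1, h2⟩ := Set.not_subset.1 h0
    have x : ∀ a b c : V, a + b = c → (i ∈ φ c ↔ (i ∈ φ a ∧ i ∉ φ b ∨ i ∈ φ b ∧ i ∉ φ a)) := by
      rintro a b c rfl
      rw [hadd, Set.mem_symmDiff]
    have y : ∀ a b : V, le a b → i ∈ φ a → i ∈ φ b := fun a b h hi => (hle' a b).1 h hi
    have a1 := y (1, 0, 0, 0) (0, 1, 1, 1) (by decide)
    have a2 := y (0, 0, 1, 0) (0, 1, 0, 0) (by decide)
    have a3 := y (1, 0, 1, 0) (1, 0, 0, 1) (by decide)
    have a4 := y (0, 0, 1, 1) (1, 0, 0, 1) (by decide)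
    have b1 := x (1, 0, 0, 0) (0, 0, 1, 0) (1, 0, 1, 0) (by decide)
    have b2 := x (0, 1, 1, 1) (0, 1, 0, 0) (0, 0, 1, 1) (by decide)
    have b3 := x (1, 0, 1, 0) (0, 0, 1, 1) (1, 0, 0, 1) (by decide)
    tauto

end Pool.Agent.Results.MP_3cee42_co.NotPlain
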